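import Mathlib
import Pool.Agent.Lib.MP_b76267_pr.Area

set_option autoImplicit false

namespace Pool.Agent.Results.MP_b76267_pr.Counterexample

open Real MeasureTheory
open scoped InnerProductSpace

/-- Periodic sets.  Taken literally the two identities have no solution, since `0 ∈ -Ω ↔ 0 ∈ Ω`.
They are required in both usual readings: `Ω + vᵢ` and `-Ω` coincide with the complement of `Ω`
up to Lebesgue null sets, and they are exactly the closure of the complement of `Ω`. -/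
def IsPeriodicSet {n : ℕ} (Ω : Set (EuclideanSpace ℝ (Fin n))) : Prop :=
  (∀ i : Fin n, (fun x => x + EuclideanSpace.single i (1 : ℝ)) '' Ω =ᵐ[volume] Ωᶜ) ∧
    (-Ω : Set (EuclideanSpace ℝ (Fin n))) =ᵐ[volume] Ωᶜ ∧
    (∀ i : Fin n, (fun x => x + EuclideanSpace.single i (1 : ℝ)) '' Ω = closure Ωᶜ) ∧
    -Ω = closure Ωᶜ

/-- `S` is locally the graph of a smooth function over a hyperplane. -/
def IsSmoothHypersurface {n : ℕ} (S : Set (EuclideanSpace ℝ (Fin n))) : Prop :=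
  ∀ p ∈ S, ∃ (ν : EuclideanSpace ℝ (Fin n)) (g : EuclideanSpace ℝ (Fin n) → ℝ)
    (U : Set (EuclideanSpace ℝ (Fin n))),
    ‖ν‖ = 1 ∧ ContDiff ℝ (⊤ : ℕ∞) g ∧ IsOpen U ∧ p ∈ U ∧
      ∀ y ∈ U, (y ∈ S ↔ ⟪y, ν⟫_ℝ = g (y - ⟪y, ν⟫_ℝ • ν))

/-- The periodic half space with signs `ε`. -/
def halfSpace {n : ℕ} (ε : Fin n → ℝ) : Set (EuclideanSpace ℝ (Fin n)) :=
  {x | 0 ≤ sin (π * ∑ i, ε i * x i)}

/-- Gaussian surface area: the integral of the standard Gaussian density over the boundary of `Ω`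
against the normalised `(n-1)`-dimensional Hausdorff measure. -/
noncomputable def gaussArea {n : ℕ} (Ω : Set (EuclideanSpace ℝ (Fin n))) : ENNReal :=
  ∫⁻ x in frontier Ω, ENNReal.ofReal ((2 * π) ^ (-(n : ℝ) / 2) * exp (-‖x‖ ^ 2 / 2)) ∂μHE[n - 1]

lemma null_planes {n : ℕ} (d w : EuclideanSpace ℝ (Fin n)) (t : ℝ) (hd : d ≠ 0) :
    volume (Lib.MP_b76267_pr.pert d w t '' {x | ∃ k : ℤ, ⟪d, x⟫_ℝ = k}) = 0 := by
  apply addHaar_image_eq_zero_of_differentiableOn_of_addHaar_eq_zero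
  · apply Differentiable.differentiableOn
    unfold Lib.MP_b76267_pr.pert
    have h1 : Differentiable ℝ fun x : EuclideanSpace ℝ (Fin n) => ⟪w, x⟫_ℝ :=
      (innerSL ℝ w).differentiable
    fun_prop
  · rw [Set.ofPred_exists]
    refine measure_iUnion_null fun k => ?_
    have hdd : ⟪d, d⟫_ℝ ≠ 0 := by simpa using hd
    set p : EuclideanSpace ℝ (Fin n) := ((k : ℝ) / ⟪d, d⟫_ℝ) • d with hp
    have hpk : ⟪d, p⟫_ℝ = k := by
      rw [hp, inner_smul_right]
      field_simp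
    have h1 : {x : EuclideanSpace ℝ (Fin n) | ⟪d, x⟫_ℝ = k} =
        (AffineSubspace.mk' p (LinearMap.ker (innerSL ℝ d).toLinearMap) :
          Set (EuclideanSpace ℝ (Fin n))) := by
      ext x
      simp only [Set.mem_ofPred_eq, SetLike.mem_coe, AffineSubspace.mem_mk', vsub_eq_sub,
        LinearMap.mem_ker, ContinuousLinearMap.coe_coe, innerSL_apply_apply, inner_sub_right, hpk,
        sub_eq_zero]
    rw [h1]
    apply Measure.addHaar_affineSubspace
    intro h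
    have h2 : p + d ∈ AffineSubspace.mk' p (LinearMap.ker (innerSL ℝ d).toLinearMap) := by
      rw [h]
      trivial
    rw [AffineSubspace.mem_mk'] at h2
    apply hdd
    simpa using h2

lemma periodic_of_null {n : ℕ} {Ω : Set (EuclideanSpace ℝ (Fin n))} (h0 : volume (frontier Ω) = 0)
    (h1 : ∀ i : Fin n, (fun x => x + EuclideanSpace.single i (1 : ℝ)) '' Ω = closure Ωᶜ)
    (h2 : -Ω = closure Ωᶜ) : IsPeriodicSet Ω := by
  have h : closure Ωᶜ =ᵐ[volume] Ωᶜ := closure_ae_eq_of_null_frontier (by rwa [frontier_compl])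
  refine ⟨fun i => ?_, ?_, h1, h2⟩
  · rw [h1 i]
    exact h
  · rw [h2]
    exact h

lemma family (n : ℕ) (hn : 1 ≤ n) (ε : Fin n → ℝ) (hε : ∀ i, ε i = 1 ∨ ε i = -1) :
    ∃ d w : EuclideanSpace ℝ (Fin n), ‖d‖ ^ 2 = n ∧ ⟪d, w⟫_ℝ = 1 ∧
      halfSpace ε = Lib.MP_b76267_pr.hsp d ∧
      ∃ δ : ℝ, 0 < δ ∧ ∀ t : ℝ, |t| < δ → ∃ Ω : Set (EuclideanSpace ℝ (Fin n)),
        Ω = Lib.MP_b76267_pr.pert d w t '' Lib.MP_b76267_pr.hsp d ∧
        IsPeriodicSet Ω ∧ IsSmoothHypersurface (frontier Ω) ∧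
        frontier Ω = Lib.MP_b76267_pr.pert d w t '' {x | ∃ k : ℤ, ⟪d, x⟫_ℝ = k} := by
  have hsq : ∀ i, ε i * ε i = 1 := fun i => by rcases hε i with h | h <;> simp [h]
  set d : EuclideanSpace ℝ (Fin n) := WithLp.toLp 2 ε with hd
  set i0 : Fin n := ⟨0, hn⟩
  set w : EuclideanSpace ℝ (Fin n) := EuclideanSpace.single i0 (ε i0) with hw
  have hdx : ∀ x : EuclideanSpace ℝ (Fin n), ⟪d, x⟫_ℝ = ∑ i, ε i * x i := by
    intro x
    simp [hd, PiLp.inner_apply, mul_comm]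
  have hdn : ‖d‖ ^ 2 = n := by
    rw [← real_inner_self_eq_norm_sq, hdx]
    simp [hd, hsq]
  have hn' : (0 : ℝ) < n := by exact_mod_cast hn
  have hd0 : d ≠ 0 := by
    intro h
    rw [h] at hdn
    simp at hdn
    linarith
  have hdw : ⟪d, w⟫_ℝ = 1 := by
    rw [hw, EuclideanSpace.inner_single_right]
    simp [hd, hsq]
  refine ⟨d, w, hdn, hdw, ?_, min (1 / (2 * π * ‖w‖ * ‖d‖ + 1)) (1 / (2 * n)), by positivity,
    fun t ht => ?_⟩
  · ext x
    simp only [halfSpace, Lib.MP_b76267_pr.hsp, hdx]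
  have ht1 : |t| * (2 * π * ‖w‖) * ‖d‖ < 1 := by
    have h1 := ht.trans_le (min_le_left _ _)
    rw [lt_div_iff₀ (by positivity)] at h1
    nlinarith [abs_nonneg t]
  have ht2 : |t| * ‖d‖ ^ 2 < 1 / 2 := by
    have h1 := ht.trans_le (min_le_right _ _)
    rw [lt_div_iff₀ (by positivity)] at h1
    rw [hdn]
    linarith
  obtain ⟨Φ, hΦ⟩ := Lib.MP_b76267_pr.exists_homeo d w t ht1
  have hfr := Lib.MP_b76267_pr.frontier_image hd0 hΦ
  refine ⟨Φ '' Lib.MP_b76267_pr.hsp d, Set.image_congr fun x _ => hΦ x,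
    periodic_of_null (by rw [hfr]; exact null_planes d w t hd0) (fun i => ?_)
      (Lib.MP_b76267_pr.neg_image hd0 hΦ), ?_, hfr⟩
  · apply Lib.MP_b76267_pr.add_image hd0 hΦ
    · rw [hw, EuclideanSpace.inner_single_left]
      by_cases h : i0 = i
      · subst h
        rcases hε i0 with h | h
        · exact ⟨1, by simp [h]⟩
        · exact ⟨-1, by simp [h]⟩
      · exact ⟨0, by simp [h]⟩
    · rw [EuclideanSpace.inner_single_right]
      simpa [hd] using hε i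
  · rw [hfr]
    exact Lib.MP_b76267_pr.smooth_graph hd0 hdw ht2

/-- Sanity check: periodic half spaces are periodic sets with smooth boundary in the above sense. -/
lemma halfSpace_periodic (n : ℕ) (hn : 1 ≤ n) (ε : Fin n → ℝ) (hε : ∀ i, ε i = 1 ∨ ε i = -1) :
    IsPeriodicSet (halfSpace ε) ∧ IsSmoothHypersurface (frontier (halfSpace ε)) := by
  obtain ⟨d, w, -, -, hB, δ, hδ, h⟩ := family n hn ε hε
  obtain ⟨Ω, hΩ, h1, h2, -⟩ := h 0 (by simpa using hδ)
  have : Lib.MP_b76267_pr.pert d w 0 = id := by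
    funext x
    simp [Lib.MP_b76267_pr.pert]
  rw [this, Set.image_id, ← hB] at hΩ
  rw [← hΩ]
  exact ⟨h1, h2⟩

/-- In every dimension `n ≥ 3`, each periodic half space is beaten by a periodic set with smooth
boundary. -/
theorem result (n : ℕ) (hn : 3 ≤ n) (ε : Fin n → ℝ) (hε : ∀ i, ε i = 1 ∨ ε i = -1) :
    ∃ Ω : Set (EuclideanSpace ℝ (Fin n)),
      IsPeriodicSet Ω ∧ IsSmoothHypersurface (frontier Ω) ∧
        gaussArea Ω < gaussArea (halfSpace ε) := by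
  obtain ⟨d, w, hdn, hdw, hB, δ, hδ, h⟩ := family n (by omega) ε hε
  have hd3 : 3 ≤ ‖d‖ ^ 2 := by
    rw [hdn]
    exact_mod_cast hn
  have hd0 : d ≠ 0 := by
    rintro rfl
    norm_num at hd3
  obtain ⟨t, ht0, htδ, ht⟩ := Lib.MP_b76267_pr.area_lt hd3 hdw
    (c := (2 * π) ^ (-(n : ℝ) / 2)) (by positivity) hδ (m := n - 1) (by simp; omega)
  obtain ⟨Ω, -, h1, h2, h3⟩ := h t (by rwa [abs_of_pos ht0])
  refine ⟨Ω, h1, h2, ?_⟩
  rw [gaussArea, gaussArea, h3, hB, Lib.MP_b76267_pr.frontier_hsp hd0]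
  exact ht

end Pool.Agent.Results.MP_b76267_pr.Counterexample
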