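import Mathlib
import Pool.Agent.Lib.MP_b76267_pr.Low.Main

set_option autoImplicit false

namespace Pool.Agent.Results.MP_b76267_pr.LowDimension

open Real MeasureTheory
open scoped InnerProductSpace

/-- Periodic sets: `Ω + vᵢ` and `-Ω` coincide with the complement of `Ω` up to Lebesgue null
sets. -/
def IsPeriodicSet {n : ℕ} (Ω : Set (EuclideanSpace ℝ (Fin n))) : Prop :=
  (∀ i : Fin n, (fun x => x + EuclideanSpace.single i (1 : ℝ)) '' Ω =ᵐ[volume] Ωᶜ) ∧
    (-Ω : Set (EuclideanSpace ℝ (Fin n))) =ᵐ[volume] Ωᶜ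

/-- The periodic half space with signs `ε`. -/
def halfSpace {n : ℕ} (ε : Fin n → ℝ) : Set (EuclideanSpace ℝ (Fin n)) :=
  {x | 0 ≤ sin (π * ∑ i, ε i * x i)}

/-- Gaussian surface area: the integral of the standard Gaussian density over the boundary of `Ω`
against the normalised `(n-1)`-dimensional Hausdorff measure. -/
noncomputable def gaussArea {n : ℕ} (Ω : Set (EuclideanSpace ℝ (Fin n))) : ENNReal :=
  ∫⁻ x in frontier Ω, ENNReal.ofReal ((2 * π) ^ (-(n : ℝ) / 2) * exp (-‖x‖ ^ 2 / 2)) ∂μHE[n - 1]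

lemma frontier_halfSpace {n : ℕ} (hn : 1 ≤ n) (ε : Fin n → ℝ) (hε : ∀ i, ε i = 1 ∨ ε i = -1) :
    frontier (halfSpace ε) = {x | ∃ k : ℤ, ∑ i, ε i * x i = k} := by
  set d : EuclideanSpace ℝ (Fin n) := WithLp.toLp 2 ε with hd
  have hdx : ∀ x : EuclideanSpace ℝ (Fin n), ⟪d, x⟫_ℝ = ∑ i, ε i * x i := by
    intro x
    simp [hd, PiLp.inner_apply, mul_comm]
  have hd0 : d ≠ 0 := by
    intro h
    have h1 : d ⟨0, hn⟩ = 0 := by simp [h]
    have h2 : ε ⟨0, hn⟩ = 0 := by simpa [hd] using h1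
    rcases hε ⟨0, hn⟩ with a | a <;> rw [a] at h2 <;> norm_num at h2
  have hB : halfSpace ε = Lib.MP_b76267_pr.hsp d := by
    ext x
    simp only [halfSpace, Lib.MP_b76267_pr.hsp, hdx]
  rw [hB, Lib.MP_b76267_pr.frontier_hsp hd0]
  simp only [hdx]

/-- In dimensions one and two, periodic half spaces minimise the Gaussian surface area among all
periodic sets. -/
theorem result (n : ℕ) (hn : 1 ≤ n) (hn2 : n ≤ 2) (ε : Fin n → ℝ) (hε : ∀ i, ε i = 1 ∨ ε i = -1)
    (Ω : Set (EuclideanSpace ℝ (Fin n))) (hΩ : IsPeriodicSet Ω) :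
    gaussArea (halfSpace ε) ≤ gaussArea Ω := by
  have hS := Lib.MP_b76267_pr.Low.swap_ess hΩ.1 hΩ.2
  have hsub := Lib.MP_b76267_pr.Low.ess_inter_subset Ω
  rw [gaussArea, gaussArea, frontier_halfSpace hn ε hε]
  refine le_trans ?_ (lintegral_mono_set hsub)
  interval_cases n
  · apply lintegral_mono_set
    rintro x ⟨k, hk⟩
    rw [Fin.sum_univ_one] at hk
    obtain ⟨j, hj⟩ : ∃ j : ℤ, x 0 = j := by
      rcases hε 0 with a | a <;> rw [a] at hk
      · exact ⟨k, by linarith⟩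
      · exact ⟨-k, by push_cast; linarith⟩
    have := hS.add_int 0 j hS.zero_mem
    convert this using 1
    ext i
    fin_cases i
    simp [hj]
  · simp only [Fin.sum_univ_two, Lib.MP_b76267_pr.Low.density]
    exact (Lib.MP_b76267_pr.Low.upper (hε 0) (hε 1)).trans (Lib.MP_b76267_pr.Low.lower hS)

end Pool.Agent.Results.MP_b76267_pr.LowDimension
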